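import Pool.Agent.H754Z.TA.Str

set_option autoImplicit false

namespace Pool.Agent.H754Z.TA.P3a

open MeasureTheory Filter Topology Pointwise

universe u

/-- The statement of the piece `engine` for a fixed group. -/
def EngineSt (G : Type u) [Group G] [TopologicalSpace G] : Prop :=
  ∀ (U : Set G), IsOpen U → (1 : G) ∈ U → (∀ x ∈ U, x⁻¹ ∈ U) → IsCompact (closure U) →
    ∀ ε : ℝ, 0 < ε →
    ∃ V ∈ 𝓝 (1 : G), ∀ N : G → ℝ, IsLen N → (∀ x, N x < 1 → x ∈ U) →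
      ∃ N' : G → ℝ, IsLen N' ∧ (∀ x, N' x < 1 → x ∈ U * U * U) ∧
        ∀ (h : G) (n : ℕ), 0 < n → (∀ i ≤ n, h ^ i ∈ V) → N' h ≤ 1 / n + ε * N h

/-- The statement of the piece `compact_nss` for a fixed group. -/
def NssSt (H : Type u) [Group H] [TopologicalSpace H] : Prop :=
  ∀ (W : Set H), W ∈ 𝓝 (1 : H) →
    ∃ N : Subgroup H, IsClosed (N : Set H) ∧ (N : Set H) ⊆ W ∧
      ∃ O : Set H, IsOpen O ∧ (N : Set H) ⊆ O ∧ ∀ S : Subgroup H, (S : Set H) ⊆ O → S ≤ N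

variable {G : Type u} [Group G]

/-- elements all of whose powers stay in `V` -/
def Q (V : Set G) : Set G := {g : G | ∀ j : ℤ, g ^ j ∈ V}

theorem Q_one {V : Set G} (h : (1 : G) ∈ V) : (1 : G) ∈ Q V := fun j => by simpa using h

theorem Q_sub (V : Set G) : Q V ⊆ V := fun g hg => by simpa using hg 1

theorem Q_inv (V : Set G) : (Q V)⁻¹ = Q V := by
  ext g
  simp only [Set.mem_inv, Q, Set.mem_ofPred_eq]
  constructor
  · intro h j
    have := h (-j)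
    simpa using this
  · intro h j
    have := h (-j)
    simpa using this

theorem pow_inv_mem {S : Set G} (hS : S⁻¹ = S) {n : ℕ} {x : G} (hx : x ∈ S ^ n) :
    x⁻¹ ∈ S ^ n := by
  have : x⁻¹ ∈ (S ^ n)⁻¹ := by simpa using hx
  rwa [← inv_pow, hS] at this

theorem pow_mul_mem {S : Set G} {m n : ℕ} {x y : G} (hx : x ∈ S ^ m) (hy : y ∈ S ^ n) :
    x * y ∈ S ^ (m + n) := by
  rw [pow_add]; exact Set.mul_mem_mul hx hy

theorem exists_pow_of_mem_closure {S : Set G} (hS : S⁻¹ = S) {x : G}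
    (hx : x ∈ Subgroup.closure S) : ∃ n : ℕ, x ∈ S ^ n := by
  induction hx using Subgroup.closure_induction with
  | mem x hx => exact ⟨1, by simpa using hx⟩
  | one => exact ⟨0, by simp⟩
  | mul x y _ _ hx hy =>
    obtain ⟨m, hm⟩ := hx
    obtain ⟨n, hn⟩ := hy
    exact ⟨m + n, pow_mul_mem hm hn⟩
  | inv x _ hx =>
    obtain ⟨m, hm⟩ := hx
    exact ⟨m, pow_inv_mem hS hm⟩

theorem len_pow {N : G → ℝ} (hN : IsLen N) {S : Set G} {c : ℝ} (hc : ∀ q ∈ S, N q ≤ c) :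
    ∀ (n : ℕ) (x : G), x ∈ S ^ n → N x ≤ n * c := by
  intro n
  induction n with
  | zero =>
    intro x hx
    have : x = 1 := by simpa using hx
    simp [this, hN.one]
  | succ n ih =>
    intro x hx
    rw [pow_succ] at hx
    obtain ⟨a, ha, b, hb, rfl⟩ := hx
    have := hN.mul a b
    have := ih a ha
    have := hc b hb
    push_cast
    linarith

open Classical in
/-- truncated and scaled word length -/
noncomputable def wl (S : Set G) (n : ℕ) (x : G) : ℝ :=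
  if h : ∃ j : ℕ, x ∈ S ^ j then min 1 ((Nat.find h : ℝ) / n) else 1

theorem wl_le_one (S : Set G) (n : ℕ) (x : G) : wl S n x ≤ 1 := by
  unfold wl
  split_ifs
  · exact min_le_left _ _
  · exact le_rfl

theorem wl_nonneg (S : Set G) (n : ℕ) (x : G) : 0 ≤ wl S n x := by
  unfold wl
  split_ifs
  · exact le_min zero_le_one (by positivity)
  · exact zero_le_one

theorem wl_le {S : Set G} (n : ℕ) {x : G} {j : ℕ} (hx : x ∈ S ^ j) : wl S n x ≤ j / n := by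
  classical
  have h : ∃ j : ℕ, x ∈ S ^ j := ⟨j, hx⟩
  unfold wl
  rw [dif_pos h]
  refine (min_le_right _ _).trans ?_
  have : Nat.find h ≤ j := Nat.find_min' h hx
  gcongr

theorem wl_lt {S : Set G} {n : ℕ} {x : G} (hx : wl S n x < 1) :
    ∃ j : ℕ, x ∈ S ^ j ∧ wl S n x = j / n := by
  classical
  unfold wl at hx ⊢
  split_ifs at hx ⊢ with h
  · refine ⟨Nat.find h, Nat.find_spec h, ?_⟩
    rcases le_total (1 : ℝ) ((Nat.find h : ℝ) / n) with h1 | h1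
    · rw [min_eq_left h1] at hx; exact absurd hx (lt_irrefl _)
    · exact min_eq_right h1
  · exact absurd hx (lt_irrefl _)

theorem wl_len {S : Set G} (hS : S⁻¹ = S) (n : ℕ) : IsLen (wl S n) := by
  have hinv : ∀ x, wl S n x⁻¹ ≤ wl S n x := by
    intro x
    rcases (wl_le_one S n x).eq_or_lt with h | h
    · rw [h]; exact wl_le_one _ _ _
    · obtain ⟨j, hj, e⟩ := wl_lt h
      rw [e]; exact wl_le n (pow_inv_mem hS hj)
  refine ⟨wl_nonneg S n, ?_, fun x => le_antisymm (hinv x) (by simpa using hinv x⁻¹), ?_⟩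
  · refine le_antisymm ?_ (wl_nonneg _ _ _)
    have : (1 : G) ∈ S ^ 0 := by simp
    simpa using wl_le n this
  · intro x y
    rcases (wl_le_one S n x).eq_or_lt with hx | hx
    · have := wl_le_one S n (x * y)
      have := wl_nonneg S n y
      linarith
    rcases (wl_le_one S n y).eq_or_lt with hy | hy
    · have := wl_le_one S n (x * y)
      have := wl_nonneg S n x
      linarith
    obtain ⟨i, hi, ei⟩ := wl_lt hx
    obtain ⟨j, hj, ej⟩ := wl_lt hy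
    have := wl_le n (pow_mul_mem hi hj)
    rw [ei, ej, ← add_div]
    exact_mod_cast this

variable [TopologicalSpace G]

theorem finite_trap (heng : EngineSt G) {U : Set G} (hUo : IsOpen U) (hU1 : (1 : G) ∈ U)
    (hUs : ∀ x ∈ U, x⁻¹ ∈ U) (hUc : IsCompact (closure U)) (m : ℕ) :
    ∃ V₀ ∈ 𝓝 (1 : G), ∀ V : Set G, V ⊆ V₀ → (1 : G) ∈ V → ∀ n : ℕ, 0 < n → Q V ^ n ⊆ U →
      Q V ^ (m * n) ⊆ U * U * U := by
  have hε : (0 : ℝ) < 1 / (m + 1) := by positivity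
  obtain ⟨V₀, hV₀, h⟩ := heng U hUo hU1 hUs hUc _ hε
  refine ⟨V₀, hV₀, fun V hV h1 n hn hQ => ?_⟩
  have hn' : (0 : ℝ) < n := by exact_mod_cast hn
  obtain ⟨N', hN', hlt, hle⟩ := h (wl (Q V) n) (wl_len (Q_inv V) n) (by
    intro x hx
    obtain ⟨j, hj, e⟩ := wl_lt hx
    rw [e, div_lt_one hn'] at hx
    have hjn : j ≤ n := by exact_mod_cast hx.le
    exact hQ (Set.pow_subset_pow_right (Q_one h1) hjn hj))
  have hq : ∀ q ∈ Q V, N' q ≤ 1 / (m + 1) * (1 / n) := by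
    intro q hq
    have hw : wl (Q V) n q ≤ 1 / n := by
      have : q ∈ Q V ^ 1 := by simpa using hq
      simpa using wl_le n this
    refine le_of_forall_pos_le_add fun δ hδ => ?_
    obtain ⟨k, hk⟩ := exists_nat_one_div_lt hδ
    have := hle q (k + 1) (Nat.succ_pos k) (fun i _ => hV (by simpa using hq (i : ℤ)))
    push_cast at this
    have h2 := mul_le_mul_of_nonneg_left hw hε.le
    linarith
  intro x hx
  refine hlt x (lt_of_le_of_lt (len_pow hN' hq _ x hx) ?_)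
  push_cast
  have : (m : ℝ) * n * (1 / (m + 1) * (1 / n)) = m / (m + 1) := by field_simp
  rw [this, div_lt_one (by positivity)]
  linarith

open Classical in
/-- the last power of `Q V` inside `U` -/
noncomputable def nn (V U : Set G) : ℕ :=
  if h : ∃ n : ℕ, ¬ Q V ^ (n + 1) ⊆ U then Nat.find h else 0

omit [TopologicalSpace G] in
theorem nn_spec {V U : Set G} (h1 : (1 : G) ∈ V) (hU : (1 : G) ∈ U)
    (h : ¬ ((Subgroup.closure (Q V) : Subgroup G) : Set G) ⊆ U) :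
    Q V ^ nn V U ⊆ U ∧ (¬ Q V ^ (nn V U + 1) ⊆ U) ∧ (V ⊆ U → 0 < nn V U) ∧
      ∀ k : ℕ, (¬ Q V ^ (k + 1) ⊆ U) → nn V U ≤ k := by
  classical
  have hex : ∃ n : ℕ, ¬ Q V ^ (n + 1) ⊆ U := by
    obtain ⟨x, hx, hxU⟩ := Set.not_subset.1 h
    obtain ⟨n, hn⟩ := exists_pow_of_mem_closure (Q_inv V) hx
    exact ⟨n, fun hs => hxU (hs (Set.pow_subset_pow_right (Q_one h1) (Nat.le_succ n) hn))⟩
  have e : nn V U = Nat.find hex := by unfold nn; rw [dif_pos hex]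
  rw [e]
  refine ⟨?_, Nat.find_spec hex, fun hVU => ?_, fun k hk => Nat.find_min' hex hk⟩
  · rcases Nat.eq_zero_or_pos (Nat.find hex) with h0 | h0
    · rw [h0]; simpa using hU
    · have := Nat.find_min hex (Nat.sub_one_lt h0.ne')
      rw [Nat.sub_add_cancel h0] at this
      exact not_not.1 this
  · refine Nat.pos_of_ne_zero fun h0 => ?_
    have := Nat.find_spec hex
    rw [h0] at this
    exact this (by simpa using (Q_sub V).trans hVU)

variable [IsTopologicalGroup G]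

/-- limits of elements of bounded relative word length -/
def lim (𝒰 : Ultrafilter (Set G)) (ν : Set G → ℕ) : Subgroup G where
  carrier := {x | ∃ (k : ℕ) (a : Set G → G), (∀ᶠ V in 𝒰, a V ∈ Q V ^ (k * ν V)) ∧
    Tendsto a 𝒰 (𝓝 x)}
  one_mem' := ⟨0, fun _ => 1, Eventually.of_forall fun V => by simp, tendsto_const_nhds⟩
  mul_mem' := by
    rintro x y ⟨k, a, ha, ha'⟩ ⟨j, b, hb, hb'⟩
    refine ⟨k + j, fun V => a V * b V, ?_, ha'.mul hb'⟩
    filter_upwards [ha, hb] with V h1 h2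
    rw [add_mul]
    exact pow_mul_mem h1 h2
  inv_mem' := by
    rintro x ⟨k, a, ha, ha'⟩
    refine ⟨k, fun V => (a V)⁻¹, ?_, ha'.inv⟩
    filter_upwards [ha] with V h1
    exact pow_inv_mem (Q_inv V) h1

theorem closure3_compact [T2Space G] {U : Set G} (hUc : IsCompact (closure U)) :
    IsCompact (closure (U * U * U)) :=
  ((hUc.mul hUc).mul hUc).closure_of_subset
    (Set.mul_subset_mul (Set.mul_subset_mul subset_closure subset_closure) subset_closure)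

theorem lim_spec [T2Space G] (heng : EngineSt G) (𝒰 : Ultrafilter (Set G))
    (hsm : (𝒰 : Filter (Set G)) ≤ (𝓝 (1 : G)).smallSets) (hnh : ∀ᶠ V in 𝒰, V ∈ 𝓝 (1 : G))
    {U : Set G} (hUo : IsOpen U) (hU1 : (1 : G) ∈ U)
    (hUs : ∀ x ∈ U, x⁻¹ ∈ U) (hUc : IsCompact (closure U))
    (hbad : ∀ V ∈ 𝓝 (1 : G), ¬ ((Subgroup.closure (Q V) : Subgroup G) : Set G) ⊆ U) :
    ((lim 𝒰 fun V => nn V U : Subgroup G) : Set G) ⊆ closure (U * U * U) ∧
      ¬ ((lim 𝒰 fun V => nn V U : Subgroup G) : Set G) ⊆ U := by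
  have htrap : ∀ m : ℕ, ∀ᶠ V in 𝒰, Q V ^ (m * nn V U) ⊆ U * U * U ∧ 0 < nn V U ∧
      ¬ Q V ^ (nn V U + 1) ⊆ U ∧ (1 : G) ∈ V := by
    intro m
    obtain ⟨V₀, hV₀, h⟩ := finite_trap heng hUo hU1 hUs hUc m
    have e1 : ∀ᶠ V in 𝒰, V ⊆ V₀ := hsm (eventually_smallSets_subset.2 hV₀)
    have e2 : ∀ᶠ V in 𝒰, V ⊆ U := hsm (eventually_smallSets_subset.2 (hUo.mem_nhds hU1))
    filter_upwards [e1, e2, hnh] with V h1 h2 h3
    have hV1 : (1 : G) ∈ V := mem_of_mem_nhds h3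
    obtain ⟨s1, s2, s3, -⟩ := nn_spec hV1 hU1 (hbad V h3)
    exact ⟨h V h1 hV1 _ (s3 h2) s1, s3 h2, s2, hV1⟩
  constructor
  · rintro x ⟨k, a, ha, ha'⟩
    refine mem_closure_of_tendsto ha' ?_
    filter_upwards [ha, htrap k] with V h1 h2
    exact h2.1 h1
  · intro hsub
    have hex : ∀ V : Set G, ∃ b : G, (¬ Q V ^ (nn V U + 1) ⊆ U) →
        b ∈ Q V ^ (nn V U + 1) ∧ b ∉ U := by
      intro V
      by_cases h : Q V ^ (nn V U + 1) ⊆ U
      · exact ⟨1, fun h' => absurd h h'⟩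
      · obtain ⟨b, hb⟩ := Set.not_subset.1 h
        exact ⟨b, fun _ => hb⟩
    choose b hb using hex
    have hb2 : ∀ᶠ V in 𝒰, b V ∈ Q V ^ (2 * nn V U) ∧ b V ∉ U ∧ b V ∈ closure (U * U * U) := by
      filter_upwards [htrap 2] with V h
      obtain ⟨h1, h2, h3, h4⟩ := h
      have := hb V h3
      have h5 : b V ∈ Q V ^ (2 * nn V U) :=
        Set.pow_subset_pow_right (Q_one h4) (by omega) this.1
      exact ⟨h5, this.2, subset_closure (h1 h5)⟩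
    obtain ⟨x, -, hx⟩ := (closure3_compact hUc).ultrafilter_le_nhds (𝒰.map b)
      (le_principal_iff.2 (hb2.mono fun V h => h.2.2))
    have hx' : Tendsto b 𝒰 (𝓝 x) := hx
    have hxU : x ∈ U := hsub ⟨2, b, hb2.mono fun V h => h.1, hx'⟩
    have : ∀ᶠ V in 𝒰, b V ∈ U := hx' (hUo.mem_nhds hxU)
    obtain ⟨V, h1, h2⟩ := (this.and hb2).exists
    exact h2.2.1 h1

theorem exists_sq {K O : Set G} (hK : IsCompact K) (hKK : ∀ x ∈ K, ∀ y ∈ K, x * y ∈ K)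
    (hO : IsOpen O) (hKO : K ⊆ O) : ∃ O' : Set G, IsOpen O' ∧ K ⊆ O' ∧ O' * O' ⊆ O := by
  obtain ⟨s, t, hs, ht, hKs, hKt, hst⟩ := generalized_tube_lemma hK hK
    (hO.preimage (continuous_mul : Continuous fun p : G × G => p.1 * p.2))
    (fun p hp => hKO (hKK _ hp.1 _ hp.2))
  refine ⟨s ∩ t, hs.inter ht, Set.subset_inter hKs hKt, ?_⟩
  rintro _ ⟨a, ha, b, hb, rfl⟩
  exact hst (Set.mk_mem_prod ha.1 hb.2)

theorem trapping_aux [LocallyCompactSpace G] [T2Space G] (heng : EngineSt G)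
    (hnss : ∀ H : Subgroup G, CompactSpace H → NssSt H) (U : Set G) (hU : U ∈ 𝓝 (1 : G)) :
    ∃ V ∈ 𝓝 (1 : G), ((Subgroup.closure (Q V) : Subgroup G) : Set G) ⊆ U := by
  by_contra hcon
  push Not at hcon
  obtain ⟨K, hK1, hKU, hKc⟩ := local_compact_nhds hU
  set U₀ : Set G := interior K ∩ (interior K)⁻¹ with hU₀
  have h1K : (1 : G) ∈ interior K := mem_interior_iff_mem_nhds.2 hK1
  have hU₀o : IsOpen U₀ := isOpen_interior.inter isOpen_interior.inv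
  have hU₀1 : (1 : G) ∈ U₀ := ⟨h1K, by simpa using h1K⟩
  have hU₀s : ∀ x ∈ U₀, x⁻¹ ∈ U₀ := fun x hx => ⟨hx.2, by simpa using hx.1⟩
  have hU₀K : U₀ ⊆ K := fun x hx => interior_subset hx.1
  have hU₀c : IsCompact (closure U₀) := hKc.closure_of_subset hU₀K
  have hbad : ∀ U' : Set G, U' ⊆ U₀ → ∀ V ∈ 𝓝 (1 : G),
      ¬ ((Subgroup.closure (Q V) : Subgroup G) : Set G) ⊆ U' :=
    fun U' hU' V hV hs => hcon V hV (hs.trans (hU'.trans (hU₀K.trans hKU)))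
  have : NeBot ((𝓝 (1 : G)).smallSets ⊓ 𝓟 {V | V ∈ 𝓝 (1 : G)}) :=
    frequently_iff_neBot.1 (frequently_smallSets_mem _)
  set 𝒰 := Ultrafilter.of ((𝓝 (1 : G)).smallSets ⊓ 𝓟 {V | V ∈ 𝓝 (1 : G)}) with h𝒰
  have hsm : (𝒰 : Filter (Set G)) ≤ (𝓝 (1 : G)).smallSets :=
    (Ultrafilter.of_le _).trans inf_le_left
  have hnh : ∀ᶠ V in 𝒰, V ∈ 𝓝 (1 : G) :=
    le_principal_iff.1 ((Ultrafilter.of_le _).trans inf_le_right)
  obtain ⟨hS₀, -⟩ := lim_spec heng 𝒰 hsm hnh hU₀o hU₀1 hU₀s hU₀c (hbad U₀ subset_rfl)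
  set S₀ : Subgroup G := lim 𝒰 fun V => nn V U₀ with hS₀def
  set H : Subgroup G := S₀.topologicalClosure with hH
  have hHc : IsCompact (H : Set G) :=
    (closure3_compact hU₀c).closure_of_subset hS₀
  have hcs : CompactSpace H := isCompact_iff_compactSpace.1 hHc
  obtain ⟨N, hNc, hNW, OH, hOH, hNO, hnss'⟩ := hnss H hcs (Subtype.val ⁻¹' U₀)
    (continuous_subtype_val.continuousAt.preimage_mem_nhds (hU₀o.mem_nhds hU₀1))
  obtain ⟨O, hO, rfl⟩ := isOpen_induced_iff.1 hOH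
  set N' : Set G := Subtype.val '' (N : Set H) with hN'
  have hN'c : IsCompact N' := hNc.isCompact.image continuous_subtype_val
  have hN'm : ∀ x ∈ N', ∀ y ∈ N', x * y ∈ N' := by
    rintro _ ⟨a, ha, rfl⟩ _ ⟨b, hb, rfl⟩
    exact ⟨a * b, N.mul_mem ha hb, rfl⟩
  have hN'i : ∀ x ∈ N', x⁻¹ ∈ N' := by
    rintro _ ⟨a, ha, rfl⟩
    exact ⟨a⁻¹, N.inv_mem ha, rfl⟩
  have hN'1 : (1 : G) ∈ N' := ⟨1, N.one_mem, rfl⟩
  have hN'O : N' ⊆ O := by
    rintro _ ⟨a, ha, rfl⟩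
    exact hNO ha
  have hN'U : N' ⊆ U₀ := by
    rintro _ ⟨a, ha, rfl⟩
    exact hNW ha
  obtain ⟨O₁, hO₁, hN₁, hsq₁⟩ := exists_sq hN'c hN'm hO hN'O
  obtain ⟨O₂, hO₂, hN₂, hsq₂⟩ := exists_sq hN'c hN'm hO₁ hN₁
  set U₂ : Set G := (O₂ ∩ O₂⁻¹) ∩ U₀ with hU₂
  have hU₂o : IsOpen U₂ := (hO₂.inter hO₂.inv).inter hU₀o
  have hNU₂ : N' ⊆ U₂ := fun x hx => ⟨⟨hN₂ hx, hN₂ (hN'i x hx)⟩, hN'U hx⟩
  have hU₂1 : (1 : G) ∈ U₂ := hNU₂ hN'1
  have hU₂s : ∀ x ∈ U₂, x⁻¹ ∈ U₂ := fun x hx =>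
    ⟨⟨hx.1.2, by simpa using hx.1.1⟩, hU₀s x hx.2⟩
  have hU₂₀ : U₂ ⊆ U₀ := Set.inter_subset_right
  have hU₂O : U₂ ⊆ O₂ := fun x hx => hx.1.1
  have hU₂c : IsCompact (closure U₂) := hKc.closure_of_subset (hU₂₀.trans hU₀K)
  obtain ⟨hS₂, hS₂'⟩ := lim_spec heng 𝒰 hsm hnh hU₂o hU₂1 hU₂s hU₂c (hbad U₂ hU₂₀)
  set S₂ : Subgroup G := lim 𝒰 fun V => nn V U₂ with hS₂def
  have hcl : closure (U₂ * U₂ * U₂) ⊆ O := by
    refine (closure_subset_mul_right_of_mem_nhds_one_of_inv _ (hU₂o.mem_nhds hU₂1) hU₂s).trans ?_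
    rw [mul_assoc (U₂ * U₂)]
    have : U₂ * U₂ ⊆ O₁ := (Set.mul_subset_mul hU₂O hU₂O).trans hsq₂
    exact (Set.mul_subset_mul this this).trans hsq₁
  have hle : S₂ ≤ S₀ := by
    rintro x ⟨k, a, ha, ha'⟩
    refine ⟨k, a, ?_, ha'⟩
    filter_upwards [ha, hnh] with V h1 h3
    have hV1 : (1 : G) ∈ V := mem_of_mem_nhds h3
    obtain ⟨-, s2, -, -⟩ := nn_spec hV1 hU₀1 (hbad U₀ subset_rfl V h3)
    obtain ⟨-, -, -, s4⟩ := nn_spec hV1 hU₂1 (hbad U₂ hU₂₀ V h3)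
    have := s4 _ fun hs => s2 (hs.trans hU₂₀)
    exact Set.pow_subset_pow_right (Q_one hV1) (Nat.mul_le_mul_left k this) h1
  have hleH : S₂ ≤ H := hle.trans S₀.le_topologicalClosure
  have hT := hnss' (S₂.subgroupOf H) fun x hx => hcl (hS₂ hx)
  refine hS₂' fun x hx => hNU₂ ⟨⟨x, hleH hx⟩, hT hx, rfl⟩

end Pool.Agent.H754Z.TA.P3a
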